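import Pool.Agent.X177.SA.Core

set_option autoImplicit false

/-!
# Periods of orbits inside a special alpha-limit set (problem `MP_919dc2_an`)

The answer to Q1 is yes: if the special alpha-limit set of a point `x` of a continuous map
`f : [0, 1] → [0, 1]` contains a periodic orbit of period `3`, then for each `n ≥ 1` it contains a
periodic orbit of period `n` or a periodic orbit of period `2 n`.
-/

namespace Pool.Agent.Results.MP_919dc2_an.PeriodNOrTwoN

open Filter Topology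

/-- `z` is a backward orbit branch of `x` under `f`: `z 0 = x` and `f (z (k + 1)) = z k`. -/
def IsBackwardBranch {X : Type} (f : X → X) (x : X) (z : ℕ → X) : Prop :=
  z 0 = x ∧ ∀ k, f (z (k + 1)) = z k

/-- The special alpha-limit set of `x`: all limits of subsequences of backward orbit branches
of `x`. -/
def specialAlpha {X : Type} [TopologicalSpace X] (f : X → X) (x : X) : Set X :=
  {y | ∃ z, IsBackwardBranch f x z ∧ ∃ φ : ℕ → ℕ, StrictMono φ ∧ Tendsto (z ∘ φ) atTop (𝓝 y)}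

/-- The set `S` contains a periodic orbit of `f` of (least) period `n`. -/
def ContainsOrbit {X : Type} (f : X → X) (S : Set X) (n : ℕ) : Prop :=
  0 < n ∧ ∃ p, Function.minimalPeriod f p = n ∧ ∀ i, f^[i] p ∈ S

end Pool.Agent.Results.MP_919dc2_an.PeriodNOrTwoN

namespace Pool.Agent.X177.SA

open Filter Topology Pool.Agent.Results.MP_919dc2_an.PeriodNOrTwoN

theorem minPeriod_three {f : ℝ → ℝ} {c : ℝ} (h3 : f (f (f c)) = c) (h1 : f c ≠ c) :
    Function.minimalPeriod f c = 3 := by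
  have hper : Function.IsPeriodicPt f 3 c := h3
  rcases (Nat.Prime.eq_one_or_self_of_dvd Nat.prime_three _ hper.minimalPeriod_dvd) with h | h
  · exfalso
    have h4 : Function.IsPeriodicPt f 1 c := h ▸ Function.isPeriodicPt_minimalPeriod f c
    exact h1 h4
  · exact h

theorem core3 {f : ℝ → ℝ} (hf : Continuous f) (hI : ∀ x, f x ∈ Set.Icc (0 : ℝ) 1) {x a b c : ℝ}
    (hab : a < b) (hac : a < c) (hbc : b ≠ c) (fa : f a = b) (fb : f b = c) (fc : f c = a)
    (ha : a ∈ sAlpha f x) (hb : b ∈ sAlpha f x) (hc : c ∈ sAlpha f x) {n : ℕ} (hn : 1 ≤ n) :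
    HasOrbit f (sAlpha f x) n ∨ HasOrbit f (sAlpha f x) (2 * n) := by
  have ha' := subset_closure ha
  have hb' := subset_closure hb
  have hc' := subset_closure hc
  rcases lt_or_gt_of_ne hbc with h | h
  · refine core hf hI hn rfl (c0 := a) (c2 := c) (l1 := a) (l2 := b) (r1 := b) (r2 := c) (c := b)
      ha' hc' hac ha' ⟨le_rfl, hac.le⟩ hb' ⟨hab.le, h.le⟩ hb' ⟨hab.le, h.le⟩ hc' ⟨hac.le, le_rfl⟩
      hab h (fun t _ h2 h3 _ => le_antisymm h2 h3) (minPeriod_three (by rw [fb, fc, fa])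
      (by rw [fb]; exact h.ne')) ?_ ?_ ?_ ?_
    · rw [fb, fc]
      rintro ⟨h1, _⟩
      linarith
    · rw [fa, fb]
      exact Set.Icc_subset_uIcc
    · rw [fb, fc]
      intro y hy
      exact Set.mem_uIcc.2 (Or.inr ⟨hy.1, hy.2.trans h.le⟩)
    · rw [fb, fc]
      intro y hy
      exact Set.mem_uIcc.2 (Or.inr ⟨hab.le.trans hy.1, hy.2⟩)
  · refine core hf hI hn rfl (c0 := a) (c2 := b) (l1 := c) (l2 := b) (r1 := a) (r2 := c) (c := c)
      ha' hb' hab hc' ⟨hac.le, h.le⟩ hb' ⟨hab.le, le_rfl⟩ ha' ⟨le_rfl, hab.le⟩ hc' ⟨hac.le, h.le⟩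
      h hac (fun t h1 _ _ h2 => le_antisymm h2 h1) (minPeriod_three (by rw [fc, fa, fb])
      (by rw [fc]; exact hac.ne)) ?_ ?_ ?_ ?_
    · rw [fc, fa]
      rintro ⟨_, h1⟩
      linarith
    · rw [fc, fb]
      exact Set.Icc_subset_uIcc
    · rw [fa, fc]
      intro y hy
      exact Set.mem_uIcc.2 (Or.inr ⟨hac.le.trans hy.1, hy.2⟩)
    · rw [fa, fc]
      intro y hy
      exact Set.mem_uIcc.2 (Or.inr ⟨hy.1, hy.2.trans h.le⟩)

theorem real_version {f : ℝ → ℝ} (hf : Continuous f) (hI : ∀ x, f x ∈ Set.Icc (0 : ℝ) 1) {x : ℝ}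
    (h3 : HasOrbit f (sAlpha f x) 3) {n : ℕ} (hn : 1 ≤ n) :
    HasOrbit f (sAlpha f x) n ∨ HasOrbit f (sAlpha f x) (2 * n) := by
  obtain ⟨p, _, hmin, _, hp⟩ := h3
  have h0 : p ∈ sAlpha f x := hp 0
  have h1 : f p ∈ sAlpha f x := hp 1
  have h2 : f (f p) ∈ sAlpha f x := hp 2
  have hper : f (f (f p)) = p := by
    have := Function.isPeriodicPt_minimalPeriod f p
    rw [hmin] at this
    exact this
  have hne : f p ≠ p := by
    intro h
    have h5 : Function.IsPeriodicPt f 1 p := h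
    have := h5.minimalPeriod_le one_pos
    omega
  have hne1 : f (f p) ≠ p := by
    intro h
    rw [h] at hper
    exact hne hper
  have hne2 : f (f p) ≠ f p := by
    intro h
    rw [h] at hper
    exact hne1 hper
  set q := f p with hq
  set r := f q with hr
  rcases lt_or_gt_of_ne hne with a1 | a1
  · -- q < p
    rcases lt_or_gt_of_ne hne2 with a2 | a2
    · -- r < q < p
      exact core3 hf hI (a := r) (b := p) (c := q) (a2.trans a1) a2 hne.symm hper hq.symm hr.symm
        h2 h0 h1 hn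
    · exact core3 hf hI (a := q) (b := r) (c := p) a2 a1 hne1 hr.symm hper hq.symm
        h1 h2 h0 hn
  · -- p < q
    rcases lt_or_gt_of_ne hne1 with a2 | a2
    · -- r < p < q
      exact core3 hf hI (a := r) (b := p) (c := q) a2 (a2.trans a1) hne.symm hper hq.symm hr.symm
        h2 h0 h1 hn
    · exact core3 hf hI (a := p) (b := q) (c := r) a1 a2 hne2.symm hq.symm hr.symm hper
        h0 h1 h2 hn

/-- The extension to the real line. -/
noncomputable def extR (f : Set.Icc (0 : ℝ) 1 → Set.Icc (0 : ℝ) 1) (t : ℝ) : ℝ :=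
  f (Set.projIcc 0 1 zero_le_one t)

theorem extR_coe (f : Set.Icc (0 : ℝ) 1 → Set.Icc (0 : ℝ) 1) (y : Set.Icc (0 : ℝ) 1) :
    extR f y = f y := by
  unfold extR
  rw [Set.projIcc_val]

theorem extR_iter (f : Set.Icc (0 : ℝ) 1 → Set.Icc (0 : ℝ) 1) (y : Set.Icc (0 : ℝ) 1) (n : ℕ) :
    (extR f)^[n] y = f^[n] y := by
  induction n with
  | zero => rfl
  | succ n ih => rw [Function.iterate_succ_apply', ih, extR_coe, Function.iterate_succ_apply']

theorem mem_special_iff (f : Set.Icc (0 : ℝ) 1 → Set.Icc (0 : ℝ) 1) (x y : Set.Icc (0 : ℝ) 1) :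
    y ∈ specialAlpha f x ↔ (y : ℝ) ∈ sAlpha (extR f) x := by
  constructor
  · rintro ⟨z, ⟨hz0, hz⟩, φ, hφ, h⟩
    refine ⟨fun k => (z k : ℝ), ⟨congrArg _ hz0, fun k => ⟨(z k).2, ?_⟩⟩, φ, hφ, ?_⟩
    · rw [extR_coe, hz]
    · exact (continuous_subtype_val.tendsto y).comp h
  · rintro ⟨z, ⟨hz0, hz⟩, φ, hφ, h⟩
    refine ⟨fun k => ⟨z k, (hz k).1⟩, ⟨Subtype.ext hz0, fun k => Subtype.ext ?_⟩, φ, hφ, ?_⟩
    · rw [← extR_coe]
      exact (hz k).2
    · rw [tendsto_subtype_rng]
      exact h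

theorem contains_iff (f : Set.Icc (0 : ℝ) 1 → Set.Icc (0 : ℝ) 1) (x : Set.Icc (0 : ℝ) 1) (n : ℕ) :
    ContainsOrbit f (specialAlpha f x) n ↔ HasOrbit (extR f) (sAlpha (extR f) x) n := by
  have hmp : ∀ p : Set.Icc (0 : ℝ) 1,
      Function.minimalPeriod (extR f) (p : ℝ) = Function.minimalPeriod f p := by
    intro p
    rw [Function.minimalPeriod_eq_minimalPeriod_iff]
    intro m
    unfold Function.IsPeriodicPt Function.IsFixedPt
    rw [extR_iter]
    exact Subtype.coe_inj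
  constructor
  · rintro ⟨hn, p, hp, h⟩
    refine ⟨p, p.2, by rw [hmp, hp], hn, fun i => ?_⟩
    rw [extR_iter]
    exact (mem_special_iff f x _).1 (h i)
  · rintro ⟨p, hpI, hp, hn, h⟩
    refine ⟨hn, ⟨p, hpI⟩, by rw [← hmp, hp], fun i => ?_⟩
    rw [mem_special_iff, ← extR_iter]
    exact h i

end Pool.Agent.X177.SA

namespace Pool.Agent.Results.MP_919dc2_an.PeriodNOrTwoN

open Filter Topology Pool.Agent.X177.SA

/-- For every continuous `f : [0, 1] → [0, 1]` and every `x`, if the special alpha-limit set of `x`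
contains a periodic orbit of period `3`, then for every `n ≥ 1` it contains a periodic orbit of
period `n` or a periodic orbit of period `2 n`. -/
theorem result (f : Set.Icc (0 : ℝ) 1 → Set.Icc (0 : ℝ) 1) (hf : Continuous f)
    (x : Set.Icc (0 : ℝ) 1) (h3 : ContainsOrbit f (specialAlpha f x) 3) (n : ℕ) (hn : 1 ≤ n) :
    ContainsOrbit f (specialAlpha f x) n ∨ ContainsOrbit f (specialAlpha f x) (2 * n) := by
  rw [contains_iff] at h3
  rw [contains_iff, contains_iff]
  refine real_version ?_ ?_ h3 hn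
  · exact continuous_subtype_val.comp (hf.comp continuous_projIcc)
  · intro t
    exact (f _).2

end Pool.Agent.Results.MP_919dc2_an.PeriodNOrTwoN
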